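import Pool.Agent.MWN.StmtsA

/-!
# Row NKC of block MWN (MP_23468a_al): one letter identities keep the conditions on the types
-/

set_option autoImplicit false

namespace Pool.Agent.MWN.H99

open Pool.Agent.Helper14_MV Pool.Agent.Helper2_MV Pool.Agent.MVO Pool.Agent.MWL Pool.Agent.MWS
  Pool.Agent.MWF

theorem nkc_count_le (f : ℕ → List ℕ) (l : List ℕ) (d c : ℕ) :
    l.count d * (f d).count c ≤ (l.flatMap f).count c := by
  induction l with
  | nil => simp
  | cons a l ih =>
    rw [List.flatMap_cons, List.count_append]
    by_cases h : a = d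
    · subst h
      rw [List.count_cons_self, Nat.add_mul, one_mul]
      omega
    · rw [List.count_cons_of_ne h]
      omega

theorem nkc_ub (A : Cd) {m n : ℕ} (h : A.sat n = true) (hmn : m ≤ n) : A.ub m = true := by
  cases A with
  | z =>
    have : n = 0 := by simpa [Cd.sat] using h
    have h2 : m = 0 := by omega
    simp [Cd.ub, h2]
  | one =>
    have : n = 1 := by simpa [Cd.sat] using h
    have h2 : m ≤ 1 := by omega
    simpa [Cd.ub] using h2
  | pos => rfl
  | two => rfl
  | any => rfl

theorem nkc_blk {k : ℕ} {W : ℕ → List ℕ} (h : Two01 k W) : BlkOk k W := by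
  intro j hj c hc hs
  rcases h j hj c hc with h1 | h1 <;> omega

theorem nkc_good (A : Cd) {p q : ℕ} (h : A.good p q = true) {m r : ℕ} (hm : 1 ≤ m)
    (hs : A.sat (r + m * p) = true) : A.sat (r + m * q) = true := by
  cases A with
  | z =>
    have h1 : r + m * p = 0 := by simpa [Cd.sat] using hs
    have h2 : ((p == 0) == (q == 0)) = true := h
    have hr : r = 0 := by omega
    have hp : p = 0 := by
      rcases Nat.eq_zero_or_pos p with e | e
      · exact e
      · have := Nat.mul_le_mul hm e
        omega
    subst hr; subst hp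
    have hq : q = 0 := by
      rcases Nat.eq_zero_or_pos q with e | e
      · exact e
      · have hne : (q == 0) = false := by simp; omega
        rw [hne] at h2
        simp at h2
    subst hq
    simp [Cd.sat]
  | pos =>
    have h1 : 1 ≤ r + m * p := by simpa [Cd.sat] using hs
    have h2 : ((p == 0) == (q == 0)) = true := h
    show Nat.ble 1 (r + m * q) = true
    rw [Nat.ble_eq]
    rcases Nat.eq_zero_or_pos q with e | e
    · subst e
      have hp : p = 0 := by
        rcases Nat.eq_zero_or_pos p with e | e
        · exact e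
        · have hne : (p == 0) = false := by simp; omega
          rw [hne] at h2
          simp at h2
      subst hp
      omega
    · have := Nat.mul_le_mul hm e
      omega
  | one =>
    have h1 : r + m * p = 1 := by simpa [Cd.sat] using hs
    have h2 : ((p == q) || (Nat.ble 2 p && Nat.ble 2 q)) = true := h
    rw [Bool.or_eq_true, Bool.and_eq_true, Nat.ble_eq, Nat.ble_eq, beq_iff_eq] at h2
    rcases h2 with e | ⟨e, -⟩
    · subst e; exact hs
    · have := Nat.mul_le_mul hm e
      omega
  | two =>
    have h2 : ((p == q) || (Nat.ble 2 p && Nat.ble 2 q)) = true := h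
    rw [Bool.or_eq_true, Bool.and_eq_true, Nat.ble_eq, Nat.ble_eq, beq_iff_eq] at h2
    rcases h2 with e | ⟨-, e⟩
    · subst e; exact hs
    · have := Nat.mul_le_mul hm e
      show Nat.ble 2 (r + m * q) = true
      rw [Nat.ble_eq]
      omega
  | any => rfl

theorem nkc_sat {k k1 : ℕ} {A : ℕ → Cd} {c c' : ℕ → ℕ} (hK : KapC k1 k c c' A) {g : ℕ → ℕ}
    (hg : BMap k1 k g) {m : ℕ} {a a' : ℕ → ℕ} {r : ℕ → ℕ} (h1 : ∀ t ≤ k, a t = r t + m * psh k1 g c t)
    (h2 : ∀ t ≤ k, a' t = r t + m * psh k1 g c' t) (hs : Sat k A a) : Sat k A a' := by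
  intro t ht
  rcases Nat.eq_zero_or_pos m with e | e
  · subst e
    have := hs t ht
    rw [h1 t ht, Nat.zero_mul] at this
    rw [h2 t ht, Nat.zero_mul]
    exact this
  · rcases hK g hg with ⟨hn, -⟩ | hgood
    · exfalso
      apply hn
      intro j hj
      refine nkc_ub (A j) (hs j hj) ?_
      rw [h1 j hj]
      have := Nat.mul_le_mul e (le_refl (psh k1 g c j))
      omega
    · rw [h2 t ht]
      refine nkc_good (A t) (hgood t ht) e ?_
      rw [← h1 t ht]
      exact hs t ht

theorem nkc (hN : NdcStmt) (hC : NctStmt) : NkcStmt := by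
  classical
  intro k k1 A B c c' f p q W hd hKA hKB hW hA hB hw
  -- the letters of `f 0`
  have hf0 : ∀ x ∈ f 0, x = 0 ∨ x = 1 := by
    intro x hx
    have hns : NS k1 0 := by rintro ⟨h1, -⟩; omega
    have hcnt : 2 ≤ (mw k1 c).count 0 := by
      unfold mw
      rw [count_asm hns]
      simpa using hd
    have h0 : 1 ≤ (f 0).count x := List.count_pos_iff.2 hx
    have h1 := nkc_count_le f (mw k1 c) 0 x
    have h2 : 2 ≤ (asm k W).count x := by
      rw [← hw, List.count_append, List.count_append]
      have := Nat.mul_le_mul hcnt h0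
      omega
    have h3 : x ∈ asm k W := List.count_pos_iff.1 (by omega)
    rcases mem_asm.1 h3 with ⟨a1, a2⟩ | ⟨j, hj, a1⟩
    · have := count_sep (nkc_blk hW) a1 a2
      omega
    · exact hW j hj x a1
  -- the letter `1` does not matter
  have h1mem : ∀ d : ℕ → ℕ, (1 : ℕ) ∉ mw k1 d := by
    intro d h
    rcases mem_asm.1 h with ⟨a1, -⟩ | ⟨j, -, a1⟩
    · omega
    · have := List.eq_of_mem_replicate a1
      omega
  have hfl : ∀ d : ℕ → ℕ, (mw k1 d).flatMap f = (mw k1 d).flatMap (Function.update f 1 []) := by
    intro d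
    have hgen : ∀ l : List ℕ, 1 ∉ l → l.flatMap f = l.flatMap (Function.update f 1 []) := by
      intro l
      induction l with
      | nil => intro _; rfl
      | cons x l ih =>
        intro hx
        rw [List.flatMap_cons, List.flatMap_cons, ih (fun h => hx (List.mem_cons_of_mem _ h)),
          Function.update_of_ne (fun h => hx (by rw [h]; exact List.mem_cons_self))]
    exact hgen _ (h1mem d)
  have g0 : (Function.update f 1 ([] : List ℕ)) 0 = f 0 :=
    Function.update_of_ne (by omega) _ _
  have g1 : (Function.update f 1 ([] : List ℕ)) 1 = [] := Function.update_self _ _ _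
  have hU : ∀ d : ℕ → ℕ, Two01 k1 (fun j => List.replicate (d j) 0) := by
    intro d j _ x hx
    exact Or.inl (List.eq_of_mem_replicate hx)
  obtain ⟨T, g, hg, hT, hTf, hV⟩ := hN k k1 (Function.update f 1 []) p q
    (fun j => List.replicate (c j) 0) W hW (hU c)
    (by
      intro x hx
      rw [g0, g1] at hx
      rcases hx with hx | hx
      · exact hf0 x hx
      · simp at hx)
    (by rw [← hw, hfl c]; rfl)
  have hblk : ∀ d : ℕ → ℕ, Two01 k (fun t => (T t).flatMap (hv (k + k1 + 2)
      (Function.update f 1 []) (fun j => List.replicate (d j) 0))) := by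
    intro d t ht x hx
    obtain ⟨y, hy, hxy⟩ := List.mem_flatMap.1 hx
    unfold hv at hxy
    split_ifs at hxy with hle
    · obtain ⟨z, hz, hxz⟩ := List.mem_flatMap.1 hxy
      have := List.eq_of_mem_replicate hz
      subst this
      rw [g0] at hxz
      exact hf0 x hxz
    · rw [List.mem_singleton] at hxy
      subst hxy
      rcases hT t ht x hy with e | e | e
      · exact Or.inl e
      · exact Or.inr e
      · exact absurd e hle
  have hWt : ∀ t ≤ k, W t = (T t).flatMap (hv (k + k1 + 2)
      (Function.update f 1 []) (fun j => List.replicate (c j) 0)) := by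
    refine uniq (nkc_blk hW) (nkc_blk (hblk c)) ?_
    rw [← hV _ (hU c), ← hw, hfl c]
    rfl
  refine ⟨fun t => (T t).flatMap (hv (k + k1 + 2) (Function.update f 1 [])
    (fun j => List.replicate (c' j) 0)), ?_, hblk c', ?_, ?_⟩
  · rw [← hV _ (hU c'), hfl c']
    rfl
  · choose! r hr using fun (t : ℕ) (ht : t ≤ k) => hC k1 (k + k1 + 2) (Function.update f 1 [])
      (T t) g t (hTf t ht) 0
    have key : ∀ d : ℕ → ℕ, ∀ t ≤ k, ((T t).flatMap (hv (k + k1 + 2)
        (Function.update f 1 []) (fun j => List.replicate (d j) 0))).count 0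
        = r t + (f 0).count 0 * psh k1 g d t := by
      intro d t ht
      rw [hr t ht _ (hU d), g0, g1]
      have e : ty (fun j => List.replicate (d j) 0) 0 = d := by
        funext j; simp [ty]
      rw [e]
      simp
    exact nkc_sat hKA hg (fun t ht => by
      show (W t).count 0 = _
      rw [hWt t ht]; exact key c t ht) (fun t ht => key c' t ht) hA
  · choose! r hr using fun (t : ℕ) (ht : t ≤ k) => hC k1 (k + k1 + 2) (Function.update f 1 [])
      (T t) g t (hTf t ht) 1
    have key : ∀ d : ℕ → ℕ, ∀ t ≤ k, ((T t).flatMap (hv (k + k1 + 2)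
        (Function.update f 1 []) (fun j => List.replicate (d j) 0))).count 1
        = r t + (f 0).count 1 * psh k1 g d t := by
      intro d t ht
      rw [hr t ht _ (hU d), g0, g1]
      have e : ty (fun j => List.replicate (d j) 0) 0 = d := by
        funext j; simp [ty]
      rw [e]
      simp
    exact nkc_sat hKB hg (fun t ht => by
      show (W t).count 1 = _
      rw [hWt t ht]; exact key c t ht) (fun t ht => key c' t ht) hB

end Pool.Agent.MWN.H99
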